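import Pool.Agent.Q215.MB.Stm

/-!
Existence of generic presentations of depth zero (`S_pres0` of `Pool/Agent/Q215/MB/Stm.lean`).
-/

set_option autoImplicit false

open Set Topology Filter

namespace Pool.Agent.Q234.MB.Pres0

open Pool.Agent.Q215.WR (Two Lim Flat S_col)
open Pool.Agent.Q215.MB

lemma two_mono {M M' : Set ℝ} (h : M ⊆ M') {x : ℝ} (hx : Two M x) : Two M' x := by
  intro ε hε
  obtain ⟨⟨z, hz, h1⟩, w, hw, h2⟩ := hx ε hε
  exact ⟨⟨z, h hz, h1⟩, w, h hw, h2⟩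

lemma lim_mono {M M' : Set ℝ} (h : M ⊆ M') {x : ℝ} (hx : Lim M x) : Lim M' x := by
  intro ε hε
  obtain ⟨z, hz, h1⟩ := hx ε hε
  exact ⟨z, h hz, h1⟩

lemma lim_of_two {M : Set ℝ} {x : ℝ} (hx : Two M x) : Lim M x := by
  intro ε hε
  obtain ⟨-, w, hw, h1, h2⟩ := hx ε hε
  exact ⟨w, hw, h1.ne', by rw [abs_lt]; constructor <;> linarith⟩

lemma lim_of_closure {M : Set ℝ} (hM : ∀ x ∈ M, Two M x) {x : ℝ} (hx : x ∈ closure M) : Lim M x := by
  by_cases h : x ∈ M
  · exact lim_of_two (hM x h)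
  · intro ε hε
    obtain ⟨z, hz, hd⟩ := Metric.mem_closure_iff.1 hx ε hε
    refine ⟨z, hz, fun he => h (he ▸ hz), ?_⟩
    rw [Real.dist_eq, abs_sub_comm] at hd
    exact hd

theorem t_pres0 : S_pres0 := by
  intro hstep i
  refine ⟨ℕ, inferInstance, inferInstance, 0, fun _ => True, fun _ => i + 1, fun a => Nat.zero_le a,
    ⟨1, one_ne_zero⟩, ?_⟩
  intro l N' U V hFS hle hN'c hA
  obtain ⟨H, hHc, hHU⟩ := hFS (i + 1)
  have hVc : IsClosed V := hA.closedV
  have hUc : IsClosed U := hA.closedU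
  have hstep' := hstep l i 0 N' U V hA
  set S : Set ℝ := V ∪ ({x | i + 1 ≤ l x} ∩ U) with hS
  have hHS : ∀ n, H n ∩ U ⊆ S := by
    intro n x hx
    refine Or.inr ⟨?_, hx.2⟩
    rw [← hHU]
    exact mem_iUnion.2 ⟨n, hx.1⟩
  -- the step as a function
  choose! g gM g1 g2 g3 g4 g5 g6 g7 g8 g9 g10 g11 _g12 using hstep'
  let E : ℕ → {X : Set ℝ // IsClosed X ∧ V ⊆ X ∧ X ⊆ S} := fun n =>
    Nat.rec ⟨V ∪ (H 0 ∩ U), hVc.union ((hHc 0).inter hUc), subset_union_left,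
        union_subset subset_union_left (hHS 0)⟩
      (fun n X => ⟨g X.1 ∪ (H (n + 1) ∩ U),
        (g1 X.1 X.2.1 X.2.2.1 X.2.2.2).union ((hHc (n + 1)).inter hUc),
        (X.2.2.1.trans (g2 X.1 X.2.1 X.2.2.1 X.2.2.2)).trans subset_union_left,
        union_subset (g3 X.1 X.2.1 X.2.2.1 X.2.2.2) (hHS (n + 1))⟩) n
  set F : ℕ → Set ℝ := fun n => g (E n).1 with hF
  set M : ℕ → Set ℝ := fun n => gM (E n).1 with hM
  have hE : ∀ n, IsClosed (E n).1 ∧ V ⊆ (E n).1 ∧ (E n).1 ⊆ S := fun n => (E n).2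
  have hE0 : (E 0).1 = V ∪ (H 0 ∩ U) := rfl
  have hEs : ∀ n, (E (n + 1)).1 = F n ∪ (H (n + 1) ∩ U) := fun n => rfl
  have hHE : ∀ n, H n ∩ U ⊆ (E n).1 := by
    intro n
    cases n with
    | zero => rw [hE0]; exact subset_union_right
    | succ n => rw [hEs]; exact subset_union_right
  have f1 : ∀ n, IsClosed (F n) := fun n => g1 _ (hE n).1 (hE n).2.1 (hE n).2.2
  have f2 : ∀ n, (E n).1 ⊆ F n := fun n => g2 _ (hE n).1 (hE n).2.1 (hE n).2.2
  have f3 : ∀ n, F n ⊆ S := fun n => g3 _ (hE n).1 (hE n).2.1 (hE n).2.2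
  have f4 : ∀ n, (M n).Countable := fun n => g4 _ (hE n).1 (hE n).2.1 (hE n).2.2
  have f5 : ∀ n, M n ⊆ F n \ (E n).1 := fun n => g5 _ (hE n).1 (hE n).2.1 (hE n).2.2
  have f6 : ∀ n, ∀ x ∈ M n, l x = i + 1 := fun n => g6 _ (hE n).1 (hE n).2.1 (hE n).2.2
  have f7 : ∀ n, ∀ x ∈ M n, Two (M n) x := fun n => g7 _ (hE n).1 (hE n).2.1 (hE n).2.2
  have f8 : ∀ n, ∀ x ∈ (E n).1, Two (M n) x := fun n => g8 _ (hE n).1 (hE n).2.1 (hE n).2.2
  have f9 : ∀ n, F n \ (E n).1 ⊆ closure (M n) := fun n => g9 _ (hE n).1 (hE n).2.1 (hE n).2.2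
  have f10 : ∀ n, ∀ x ∈ F n \ (E n).1, x ∉ N' := fun n => g10 _ (hE n).1 (hE n).2.1 (hE n).2.2
  have f11 : ∀ n, ∀ r : ℝ, (∃ x ∈ M n, r < x) ∧ ∃ x ∈ M n, x < r :=
    fun n => g11 _ (hE n).1 (hE n).2.1 (hE n).2.2
  -- the presentation
  let D : ℕ → Set ℝ := fun n => Nat.rec V (fun n _ => F n) n
  have hD0 : D 0 = V := rfl
  have hDs : ∀ n, D (n + 1) = F n := fun n => rfl
  have hDE : ∀ n, D n ⊆ (E n).1 := by
    intro n
    cases n with
    | zero => exact (hE 0).2.1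
    | succ n => rw [hDs, hEs]; exact subset_union_left
  have hmono : Monotone D := by
    apply monotone_nat_of_le_succ
    intro n
    rw [hDs]
    exact (hDE n).trans (f2 n)
  have hMF : ∀ n, M n ⊆ F n := fun n x hx => (f5 n hx).1
  have hLay : ∀ n, ∀ x ∈ M n, x ∈ Lay D (n + 1) := by
    intro n x hx
    refine ⟨by rw [hDs]; exact hMF n hx, fun b hb hxb => ?_⟩
    exact (f5 n hx).2 (hDE n (hmono (Nat.lt_succ_iff.1 hb) hxb))
  set N : Set ℝ := (N' ∩ ({x | i + 1 ≤ l x} ∩ (U \ V))) ∪ ⋃ n, M n with hN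
  have hMN : ∀ n, M n ⊆ N ∩ Lay D (n + 1) := fun n x hx =>
    ⟨Or.inr (mem_iUnion.2 ⟨n, hx⟩), hLay n x hx⟩
  have hsucc : ∀ a : ℕ, a ≠ 0 → ∃ m, a = m + 1 := fun a ha => ⟨a - 1, by omega⟩
  refine ⟨D, N, ?_⟩
  refine
    { bot_eq := hD0
      closed := ?_
      mono := fun a b h => hmono h
      closedlt := ?_
      lims := fun a _ h => absurd trivial h
      union := ?_
      lev := ?_
      countN := ?_
      subN := ?_
      supN := subset_union_left
      lim := ?_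
      two := ?_
      twoN := ?_
      unb := ?_ }
  · intro a
    cases a with
    | zero => exact hVc
    | succ n => exact f1 n
  · intro a ha _
    obtain ⟨m, rfl⟩ := hsucc a ha
    have hD : IsClosed (D m) := by
      cases m with
      | zero => exact hVc
      | succ n => exact f1 n
    have he : {x | ∃ b, b < m + 1 ∧ x ∈ D b} = D m := by
      apply Subset.antisymm
      · rintro x ⟨b, hb, hx⟩
        exact hmono (Nat.lt_succ_iff.1 hb) hx
      · intro x hx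
        exact ⟨m, Nat.lt_succ_self m, hx⟩
    rw [he]
    exact hD
  · apply Subset.antisymm
    · apply iUnion_subset
      intro a
      cases a with
      | zero => exact subset_union_left
      | succ n => exact f3 n
    · rintro x (hx | ⟨hx, hxU⟩)
      · exact mem_iUnion.2 ⟨0, hx⟩
      · rw [← hHU] at hx
        obtain ⟨m, hm⟩ := mem_iUnion.1 hx
        exact mem_iUnion.2 ⟨m + 1, f2 m (hHE m ⟨hm, hxU⟩)⟩
  · intro a ha x hx
    obtain ⟨m, rfl⟩ := hsucc a ha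
    have h1 : x ∈ F m := hx.1
    have h2 : x ∉ V := hx.2 0 (Nat.succ_pos m)
    have h3 := hle x
    rcases f3 m h1 with h | h
    · exact absurd h h2
    · have h4 : i + 1 ≤ l x := h.1
      show l x = i + 1
      omega
  · exact (hN'c.mono inter_subset_left).union (countable_iUnion f4)
  · rintro x (hx | hx)
    · exact hx.2
    · obtain ⟨m, hm⟩ := mem_iUnion.1 hx
      have h1 := f5 m hm
      have h2 : x ∉ V := fun h => h1.2 ((hE m).2.1 h)
      rcases f3 m h1.1 with h | h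
      · exact absurd h h2
      · exact ⟨h.1, h.2, h2⟩
  · intro a ha _ x hx
    obtain ⟨m, rfl⟩ := hsucc a ha
    have hx' : x ∈ F m := hx
    by_cases hxE : x ∈ (E m).1
    · exact lim_mono (hMN m) (lim_of_two (f8 m x hxE))
    · exact lim_mono (hMN m) (lim_of_closure (f7 m) (f9 m ⟨hx', hxE⟩))
  · intro a b hb x hx
    obtain ⟨m, rfl⟩ := hsucc a (by omega)
    exact two_mono (hMN m) (f8 m x (hDE m (hmono (Nat.lt_succ_iff.1 hb) hx)))
  · intro a ha x hx
    obtain ⟨m, rfl⟩ := hsucc a ha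
    obtain ⟨hxN, hxL⟩ := hx
    have hxF : x ∈ F m := hxL.1
    show Two (F m) x
    rcases hxN with hxN | hxN
    · by_cases hxE : x ∈ (E m).1
      · exact two_mono (hMF m) (f8 m x hxE)
      · exact absurd hxN.1 (f10 m x ⟨hxF, hxE⟩)
    · obtain ⟨k, hk⟩ := mem_iUnion.1 hxN
      rcases lt_trichotomy k m with h | h | h
      · exact absurd (hMF k hk) (hxL.2 (k + 1) (by omega))
      · rw [h] at hk
        exact two_mono (hMF m) (f7 m x hk)
      · refine absurd ?_ (f5 k hk).2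
        exact hDE k (hmono (show m + 1 ≤ k by omega) hxL.1)
  · intro a ha r
    obtain ⟨m, rfl⟩ := hsucc a ha
    obtain ⟨⟨x, hx, h1⟩, y, hy, h2⟩ := f11 m r
    exact ⟨⟨x, hMN m hx, h1⟩, y, hMN m hy, h2⟩

end Pool.Agent.Q234.MB.Pres0
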